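import Pool.Agent.Lib.MP_10e52e_an.Main
import Pool.Agent.Lib.MP_10e52e_an.Final

/-! For all large `N` the Ambjorn-Olesen system on the unit square torus with `g = 1`,
`θ = π/4`, `φ₀² = 4π(N-1)` and one vortex point of multiplicity `N` satisfies condition (A) and
`R = 1` but has no solution. This disproves the statement of Q1 of MP_10e52e_an. -/

namespace Pool.Agent.Results.MP_10e52e_an.Disproof

open Pool.Agent.AO Real

theorem result : ∃ N₀ : ℕ, ∀ N : ℕ, N₀ ≤ N → ∀ φ₀ : ℝ, φ₀ = √(4 * π * (N - 1)) →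
    ((1 : ℝ) ^ 2 * φ₀ ^ 2 < 4 * π * N ∧
      4 * π * N < (1 : ℝ) ^ 2 * φ₀ ^ 2 / Real.cos (π / 4) ^ 2) ∧
    (4 * π * N - (1 : ℝ) ^ 2 * φ₀ ^ 2) / (8 * π * Real.sin (π / 4) ^ 2) = 1 ∧
    ∀ p : Fin 1 → ℝ × ℝ, ¬ ∃ u w, IsSolution 1 φ₀ (π / 4) p (fun _ => N) u w := by
  obtain ⟨K, R, hG, N0, h⟩ := no_sol
  exact final_of_noSol hG ⟨N0, fun N hN mu om => h N mu om hN⟩

end Pool.Agent.Results.MP_10e52e_an.Disproof
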